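import Pool.Agent.helper67.TPC.Spec

/-!
# Project tpc:, module KEY: the key relation
-/

set_option autoImplicit false

open Finset PowerSeries

noncomputable section

namespace Pool.Agent.TPC

open Pool.Agent.EP

/-- If `j` and `x` are coprime then `JG ac j x` has a single term. -/
theorem KEY_JG (j x : ℕ) (hj : 0 < j) (hc : Nat.Coprime j x) : JG ac j (x : ℤ) = ac ((j * x : ℕ) : ℤ) := by
  unfold JG
  have hs : j.divisors.filter (fun d : ℕ => (d : ℤ) ∣ (x : ℤ)) = {1} := by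
    ext d
    simp only [Finset.mem_filter, Nat.mem_divisors, Int.natCast_dvd_natCast, Finset.mem_singleton]
    constructor
    · rintro ⟨⟨h1, -⟩, h2⟩
      exact Nat.eq_one_of_dvd_coprimes hc h1 h2
    · rintro rfl
      exact ⟨⟨one_dvd _, hj.ne'⟩, one_dvd _⟩
  rw [hs, Finset.sum_singleton]
  push_cast
  simp

/-- The value of `ac` at `24 n - 1`. -/
theorem KEY_ac (N n : ℕ) (h : 24 * n = N + 1) : ac (N : ℤ) = pp n := by
  unfold ac
  have h1 : (N : ℤ) % 24 = 23 ∧ -1 ≤ (N : ℤ) := by omega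
  rw [if_pos h1]
  have h2 : (((N : ℤ) + 1) / 24).toNat = n := by omega
  rw [h2]

theorem KEY_co {m x y z : ℕ} (h : x % m = y % m) (hy : y.Coprime m) (hz : z ∣ m) : x.Coprime z := by
  have h1 : x.Coprime m := by
    have h2 : Nat.gcd m x = Nat.gcd m y := by
      rw [Nat.gcd_rec m x, Nat.gcd_rec m y, h]
    have h3 : Nat.gcd m y = 1 := by rw [Nat.gcd_comm]; exact hy
    exact (Nat.gcd_comm x m).trans (h2.trans h3)
  exact Nat.Coprime.coprime_dvd_right hz h1

theorem KEY (hIDB : IDB_stmt) (hJN : JN_stmt) : KEY_stmt := by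
  intro i a r s Q m μ κ D g h hD M p hM hp hMm hpm hex hne
  unfold Exc at hex
  push Not at hex
  obtain ⟨hx1, hx2, hx3⟩ := hex
  have hM6 : M.Coprime 6 := KEY_co hMm hD.μm hD.m6
  have hp6 : p.Coprime 6 := KEY_co hpm hD.κm hD.m6
  have hpQ : p.Coprime Q := KEY_co hpm hD.κm hD.Qm
  have hk6 : (Q * p).Coprime 6 := Nat.Coprime.mul_left hD.Q6 hp6
  have hM0 := hM.pos
  have hp0 := hp.pos
  have hQ0 : 0 < Q := hD.Q1
  have hk0 : 0 < Q * p := Nat.mul_pos hQ0 hp0
  have hp5 : 5 ≤ p := by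
    by_contra hlt
    have h2 := hp.two_le
    have h4 : p = 2 ∨ p = 3 ∨ p = 4 := by omega
    rcases h4 with h4 | h4 | h4 <;> rw [h4] at hp6 <;> revert hp6 <;> decide
  have hpnd : ¬ p ∣ Q := by
    intro hd
    have := Nat.eq_one_of_dvd_coprimes hpQ (dvd_refl p) hd
    exact hp.one_lt.ne' this
  have hs4 := hD.s4
  have h2s : 2 ∣ 2 ^ s := dvd_pow_self 2 (by omega)
  have hMod : M % 2 = 1 := by
    have : Nat.Coprime M 2 := Nat.Coprime.coprime_dvd_right (by norm_num) hM6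
    rcases Nat.mod_two_eq_zero_or_one M with h0 | h0
    · exfalso
      have h1 := Nat.dvd_of_mod_eq_zero h0
      have h2 := Nat.eq_one_of_dvd_coprimes this h1 (dvd_refl 2)
      omega
    · exact h0
  have hkod : (Q * p) % 2 = 1 := by
    have : Nat.Coprime (Q * p) 2 := Nat.Coprime.coprime_dvd_right (by norm_num) hk6
    rcases Nat.mod_two_eq_zero_or_one (Q * p) with h0 | h0
    · exfalso
      have h1 := Nat.dvd_of_mod_eq_zero h0
      have h2 := Nat.eq_one_of_dvd_coprimes this h1 (dvd_refl 2)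
      omega
    · exact h0
  have hev : ∀ u : ℕ, (2 ^ s * u ^ 2) % 2 = 0 := fun u => Nat.mod_eq_zero_of_dvd (Dvd.dvd.mul_right h2s _)
  have hid := hIDB s (Q * p) (by omega) hk6 (hD.k3 p hpm) (hD.fil p hp hp5 hpnd) (M : ℤ)
  by_contra hcon
  push Not at hcon
  apply hne
  -- the left side
  have hL : ∑ u ∈ uB s ((M : ℤ) + ((Q * p : ℕ) : ℤ)).toNat, JG ac (Q * p) ((M : ℤ) - 2 ^ s * (u : ℤ) ^ 2) =
      ∑ u ∈ uB s M, g u := by
    have hto : ((M : ℤ) + ((Q * p : ℕ) : ℤ)).toNat = M + Q * p := by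
      have : ((M : ℤ) + ((Q * p : ℕ) : ℤ)) = ((M + Q * p : ℕ) : ℤ) := by push_cast; ring
      rw [this, Int.toNat_natCast]
    rw [hto]
    have hsub : uB s M ⊆ uB s (M + Q * p) := by
      intro u hu
      unfold uB at hu ⊢
      rw [Finset.mem_filter, Finset.mem_range] at hu ⊢
      exact ⟨by omega, hu.2.1, by omega⟩
    rw [← Finset.sum_subset hsub ?_]
    · refine Finset.sum_congr rfl ?_
      intro u hu
      unfold uB at hu
      rw [Finset.mem_filter] at hu
      obtain ⟨-, hu6, hule⟩ := hu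
      have hev' := hev u
      have hlt : 2 ^ s * u ^ 2 < M := by omega
      have hcast : (M : ℤ) - 2 ^ s * (u : ℤ) ^ 2 = ((M - 2 ^ s * u ^ 2 : ℕ) : ℤ) := by
        rw [Nat.cast_sub hlt.le]; push_cast; ring
      have hcop : Nat.Coprime (Q * p) (M - 2 ^ s * u ^ 2) := by
        refine Nat.Coprime.mul_left (hD.cop M u hMm hlt) ?_
        exact (Nat.Prime.coprime_iff_not_dvd hp).2 (hx2 u hlt)
      obtain ⟨n, hn1, hn2, hn3⟩ := hD.lft M p u hMm hpm hu6 hlt
      rw [hcast, KEY_JG _ _ hk0 hcop, KEY_ac _ n hn1, ← hn3]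
      by_contra hc
      exact hcon n hn2 hc (Or.inl ⟨u, hlt, hn1⟩)
    · intro u hu hu'
      unfold uB at hu hu'
      rw [Finset.mem_filter, Finset.mem_range] at hu hu'
      obtain ⟨hu1, hu6, hule⟩ := hu
      have hgt : M < 2 ^ s * u ^ 2 := by
        by_contra hc
        push Not at hc
        have hu2 : u < M + 1 := by
          have h1 : u ≤ u ^ 2 := Nat.le_self_pow (by norm_num) u
          have h2 : u ^ 2 ≤ 2 ^ s * u ^ 2 := Nat.le_mul_of_pos_left _ (by positivity)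
          omega
        exact hu' ⟨hu2, hu6, hc⟩
      have hneg : (M : ℤ) - 2 ^ s * (u : ℤ) ^ 2 < 0 := by
        have : ((2 ^ s * u ^ 2 : ℕ) : ℤ) > M := by exact_mod_cast hgt
        push_cast at this
        linarith
      rw [hJN (Q * p) _ (by omega) hneg]
      rw [if_neg]
      intro h3
      apply hx1 u
      have : ((M + Q * p : ℕ) : ℤ) = ((2 ^ s * u ^ 2 : ℕ) : ℤ) := by
        push_cast at h3 ⊢; linarith
      exact_mod_cast this
  have hR : ∑ u ∈ uB s (Q * p), JG ac (Q * p - 2 ^ s * u ^ 2) (M : ℤ) = ∑ u ∈ uB s (Q * p), h u := by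
    refine Finset.sum_congr rfl ?_
    intro u hu
    unfold uB at hu
    rw [Finset.mem_filter] at hu
    obtain ⟨-, hu6, hule⟩ := hu
    have hev' := hev u
    have hlt : 2 ^ s * u ^ 2 < Q * p := by omega
    have hcop : Nat.Coprime (Q * p - 2 ^ s * u ^ 2) M :=
      ((Nat.Prime.coprime_iff_not_dvd hM).2 (hx3 u hlt)).symm
    obtain ⟨n, hn1, hn2, hn3⟩ := hD.rgt M p u hMm hpm hu6 hlt
    rw [KEY_JG _ _ (by omega) hcop, KEY_ac _ n hn1, ← hn3]
    by_contra hc
    exact hcon n hn2 hc (Or.inr ⟨u, hlt, hn1⟩)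
  rw [hL, hR] at hid
  exact hid

end Pool.Agent.TPC
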